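import Pool.Agent.Helper68.KP.StS

set_option autoImplicit false

namespace Pool.Agent.Helper62.KP

open Pool.Agent.Helper52.KP Pool.Agent.Helper68.KP Matrix

theorem hs_trace {N p : ℕ} (M : Matrix (Fin N) (Fin p) ℂ) :
    (Mᴴ * M).trace = ((hs M : ℝ) : ℂ) := by
  unfold hs
  rw [Matrix.trace]
  push_cast
  rw [Finset.sum_comm]
  refine Finset.sum_congr rfl fun j _ => ?_
  rw [Matrix.diag_apply, Matrix.mul_apply]
  refine Finset.sum_congr rfl fun i _ => ?_
  rw [Matrix.conjTranspose_apply]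
  exact Complex.conj_mul' (M i j)

theorem hHSL (h1 : StORT) (h2 : StPJZ) : StHSL := by
  intro N w σ hw hσ
  have key : ∀ σ : Matrix (Fin N) (Fin N) ℂ, IsUnit σ →
      (w.L σ).IsHermitian ∧
      hs (w.L σ) = ∑ i, ∑ j, w.c i * w.c j * (min (w.p i) (w.p j) : ℕ) +
        2 * w.c0 * ∑ i, w.c i * w.p i + w.c0 ^ 2 * N := by
    intro σ hσ
    have hex : ∀ i, ∃ (V' : Matrix (Fin N) (Fin (w.p i)) ℂ)
        (T : Matrix (Fin (w.p i)) (Fin (w.p i)) ℂ),
        V'ᴴ * V' = 1 ∧ IsUnit T ∧ σ * w.V i = V' * T := fun i =>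
      h1 N (w.p i) σ (w.V i) hσ (hw.orth i)
    choose V' T hV' hT hVT using hex
    have hpj : ∀ i, pj (σ * w.V i) = V' i * (V' i)ᴴ := fun i =>
      (h2 N (w.p i) (σ * w.V i) (V' i) (T i) (hV' i) (hT i) (hVT i)).1
    have hherm : ∀ i, (pj (σ * w.V i))ᴴ = pj (σ * w.V i) := by
      intro i
      rw [hpj i, Matrix.conjTranspose_mul, Matrix.conjTranspose_conjTranspose]
    have htr : ∀ i, (pj (σ * w.V i)).trace = (w.p i : ℂ) := by
      intro i
      rw [hpj i, Matrix.trace_mul_comm, hV' i, Matrix.trace_one, Fintype.card_fin]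
    have hfix : ∀ i, pj (σ * w.V i) * (σ * w.V i) = σ * w.V i := by
      intro i
      rw [hpj i, hVT i, ← Matrix.mul_assoc, Matrix.mul_assoc (V' i), hV' i, Matrix.mul_one]
    have hV'eq : ∀ i, V' i = σ * w.V i * (T i)⁻¹ := by
      intro i
      have hd : IsUnit (T i).det := (Matrix.isUnit_iff_isUnit_det _).1 (hT i)
      rw [hVT i, Matrix.mul_assoc, Matrix.mul_nonsing_inv _ hd, Matrix.mul_one]
    have hsub : ∀ i j, (∃ X : Matrix (Fin (w.p j)) (Fin (w.p i)) ℂ, w.V i = w.V j * X) →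
        pj (σ * w.V j) * pj (σ * w.V i) = pj (σ * w.V i) ∧ w.p i ≤ w.p j := by
      rintro i j ⟨X, hX⟩
      constructor
      · have e1 : pj (σ * w.V j) * (σ * w.V i) = σ * w.V i := by
          rw [hX, ← Matrix.mul_assoc σ, ← Matrix.mul_assoc, hfix j]
        have e2 : pj (σ * w.V j) * V' i = V' i := by
          rw [hV'eq i, ← Matrix.mul_assoc, e1]
        rw [hpj i, ← Matrix.mul_assoc, e2]
      · have e3 : ((w.V i)ᴴ * w.V j) * X = 1 := by
          rw [Matrix.mul_assoc, ← hX, hw.orth i]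
        have e4 := Matrix.rank_mul_le_right ((w.V i)ᴴ * w.V j) X
        rw [e3, Matrix.rank_one, Fintype.card_fin] at e4
        have e5 := Matrix.rank_le_card_height X
        rw [Fintype.card_fin] at e5
        exact e4.trans e5
    have htt : ∀ i j, (pj (σ * w.V i) * pj (σ * w.V j)).trace = ((min (w.p i) (w.p j) : ℕ) : ℂ) := by
      intro i j
      rcases hw.nest i j with h | h
      · obtain ⟨e1, e2⟩ := hsub i j h
        rw [Matrix.trace_mul_comm, e1, htr i, min_eq_left e2]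
      · obtain ⟨e1, e2⟩ := hsub j i h
        rw [e1, htr j, min_eq_right e2]
    have hLH : (w.L σ)ᴴ = w.L σ := by
      unfold WF.L
      rw [Matrix.conjTranspose_add, Matrix.conjTranspose_sum, Matrix.conjTranspose_smul,
        Matrix.conjTranspose_one]
      congr 1
      · refine Finset.sum_congr rfl fun i _ => ?_
        rw [Matrix.conjTranspose_smul, hherm i]
        congr 1
        exact Complex.conj_ofReal _
      · congr 1
        exact Complex.conj_ofReal _
    refine ⟨hLH, ?_⟩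
    have hLL : (w.L σ * w.L σ).trace = ((∑ i, ∑ j, w.c i * w.c j * (min (w.p i) (w.p j) : ℕ) +
        2 * w.c0 * ∑ i, w.c i * w.p i + w.c0 ^ 2 * N : ℝ) : ℂ) := by
      unfold WF.L
      rw [Matrix.add_mul, Matrix.mul_add, Matrix.mul_add, Matrix.trace_add, Matrix.trace_add,
        Matrix.trace_add]
      have t1 : ((∑ i, (w.c i : ℂ) • pj (σ * w.V i)) * (∑ i, (w.c i : ℂ) • pj (σ * w.V i))).trace
          = ∑ i, ∑ j, (w.c i : ℂ) * (w.c j : ℂ) * ((min (w.p i) (w.p j) : ℕ) : ℂ) := by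
        rw [Finset.sum_mul, Matrix.trace_sum]
        refine Finset.sum_congr rfl fun i _ => ?_
        rw [Finset.mul_sum, Matrix.trace_sum]
        refine Finset.sum_congr rfl fun j _ => ?_
        rw [Matrix.smul_mul, Matrix.mul_smul, Matrix.trace_smul, Matrix.trace_smul, htt i j,
          smul_eq_mul, smul_eq_mul]
        ring
      have t2 : ((∑ i, (w.c i : ℂ) • pj (σ * w.V i)) * ((w.c0 : ℂ) • 1)).trace
          = (w.c0 : ℂ) * ∑ i, (w.c i : ℂ) * (w.p i : ℂ) := by
        rw [Matrix.mul_smul, Matrix.mul_one, Matrix.trace_smul, Matrix.trace_sum, smul_eq_mul]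
        congr 1
        refine Finset.sum_congr rfl fun i _ => ?_
        rw [Matrix.trace_smul, htr i, smul_eq_mul]
      have t3 : (((w.c0 : ℂ) • (1 : Matrix (Fin N) (Fin N) ℂ)) *
          (∑ i, (w.c i : ℂ) • pj (σ * w.V i))).trace
          = (w.c0 : ℂ) * ∑ i, (w.c i : ℂ) * (w.p i : ℂ) := by
        rw [Matrix.trace_mul_comm, t2]
      have t4 : (((w.c0 : ℂ) • (1 : Matrix (Fin N) (Fin N) ℂ)) *
          ((w.c0 : ℂ) • (1 : Matrix (Fin N) (Fin N) ℂ))).trace = (w.c0 : ℂ) ^ 2 * N := by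
        rw [Matrix.smul_mul, Matrix.one_mul, Matrix.trace_smul, Matrix.trace_smul,
          Matrix.trace_one, Fintype.card_fin, smul_eq_mul, smul_eq_mul]
        ring
      rw [t1, t2, t3, t4]
      simp only [Complex.ofReal_add, Complex.ofReal_sum, Complex.ofReal_mul, Complex.ofReal_pow,
        Complex.ofReal_natCast, Complex.ofReal_ofNat]
      ring
    have hh := hs_trace (w.L σ)
    rw [hLH, hLL] at hh
    exact_mod_cast hh.symm
  obtain ⟨a1, a2⟩ := key σ hσ
  obtain ⟨_, b2⟩ := key 1 isUnit_one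
  exact ⟨a1, a2.trans b2.symm, b2⟩

end Pool.Agent.Helper62.KP
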