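import Pool.Agent.Helper85.KP.StE
import Pool.Agent.Helper31.KP.Hol

/-!
# Project KP, module ELI: the limit inequality
-/

set_option autoImplicit false

namespace Pool.Agent.Helper62.KP

open MeasureTheory Filter Pool.Agent.Helper52.KP Pool.Agent.Helper85.KP
open scoped ContDiff ComplexOrder Topology

section eli

variable {m : ℕ}

theorem eli_dz_congr (j : Fin m) (f g : (Fin m → ℂ) → ℂ) (z : Fin m → ℂ) (h : f =ᶠ[𝓝 z] g) :
    dz j f z = dz j g z := by
  unfold dz
  rw [h.fderiv_eq]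

theorem eli_db_congr (j : Fin m) (f g : (Fin m → ℂ) → ℂ) (z : Fin m → ℂ) (h : f =ᶠ[𝓝 z] g) :
    db j f z = db j g z := by
  unfold db
  rw [h.fderiv_eq]

theorem eli_zero (j : Fin m) (g : (Fin m → ℂ) → ℂ) (z : Fin m → ℂ) (hz : z ∉ tsupport g) :
    dz j g z = 0 ∧ db j g z = 0 := by
  have h : g =ᶠ[𝓝 z] fun _ => 0 := by
    filter_upwards [(isClosed_tsupport g).isOpen_compl.mem_nhds hz] with w hw
    exact image_eq_zero_of_notMem_tsupport hw
  rw [eli_dz_congr j _ _ z h, eli_db_congr j _ _ z h]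
  unfold dz db
  simp

theorem eli_cdz {U : Set (Fin m → ℂ)} (hU : IsOpen U) (j : Fin m) (f : (Fin m → ℂ) → ℂ)
    (hf : ContDiffOn ℝ ∞ f U) : ContDiffOn ℝ ∞ (dz j f) U := by
  have h : ContDiffOn ℝ ∞ (fderiv ℝ f) U := hf.fderiv_of_isOpen hU (by simp)
  have h1 := h.clm_apply (contDiffOn_const (c := (Pi.single j 1 : Fin m → ℂ)))
  have h2 := h.clm_apply (contDiffOn_const (c := (Pi.single j Complex.I : Fin m → ℂ)))
  exact (h1.sub (contDiffOn_const.mul h2)).div_const 2

theorem eli_cdb {U : Set (Fin m → ℂ)} (hU : IsOpen U) (j : Fin m) (f : (Fin m → ℂ) → ℂ)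
    (hf : ContDiffOn ℝ ∞ f U) : ContDiffOn ℝ ∞ (db j f) U := by
  have h : ContDiffOn ℝ ∞ (fderiv ℝ f) U := hf.fderiv_of_isOpen hU (by simp)
  have h1 := h.clm_apply (contDiffOn_const (c := (Pi.single j 1 : Fin m → ℂ)))
  have h2 := h.clm_apply (contDiffOn_const (c := (Pi.single j Complex.I : Fin m → ℂ)))
  exact (h1.add (contDiffOn_const.mul h2)).div_const 2

theorem eli_cf {U : Set (Fin m → ℂ)} (a : (Fin m → ℂ) → ℝ) (ha : ContDiffOn ℝ ∞ a U) :
    ContDiffOn ℝ ∞ (cf a) U := Complex.ofRealCLM.contDiff.comp_contDiffOn ha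

theorem eli_ts (j : Fin m) (g : (Fin m → ℂ) → ℂ) :
    tsupport (dz j g) ⊆ tsupport g ∧ tsupport (db j g) ⊆ tsupport g := by
  constructor
  · refine closure_minimal (fun z hz => ?_) (isClosed_tsupport g)
    by_contra h
    exact hz (eli_zero j g z h).1
  · refine closure_minimal (fun z hz => ?_) (isClosed_tsupport g)
    by_contra h
    exact hz (eli_zero j g z h).2

theorem eli_tst {U : Set (Fin m → ℂ)} (j : Fin m) {g : (Fin m → ℂ) → ℂ} (hg : Tst U g) :
    Tst U (dz j g) ∧ Tst U (db j g) := by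
  obtain ⟨h1, h2, h3⟩ := hg
  obtain ⟨t1, t2⟩ := eli_ts j g
  refine ⟨⟨?_, ?_, t1.trans h3⟩, ⟨?_, ?_, t2.trans h3⟩⟩
  · exact contDiffOn_univ.1 (eli_cdz isOpen_univ j g h1.contDiffOn)
  · exact h2.of_isClosed_subset (isClosed_tsupport _) t1
  · exact contDiffOn_univ.1 (eli_cdb isOpen_univ j g h1.contDiffOn)
  · exact h2.of_isClosed_subset (isClosed_tsupport _) t2

/-- a cutoff function -/
theorem eli_cut {K U : Set (Fin m → ℂ)} (hK : IsCompact K) (hU : IsOpen U) (hKU : K ⊆ U) :
    ∃ F : (Fin m → ℂ) → ℝ, ContDiff ℝ ∞ F ∧ HasCompactSupport F ∧ tsupport F ⊆ U ∧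
      ∀ z ∈ K, F =ᶠ[𝓝 z] fun _ => 1 := by
  obtain ⟨L, hL, hKL, hLU⟩ := exists_compact_between hK hU hKU
  obtain ⟨f, h1, h0, -⟩ := exists_contMDiffMap_one_nhds_of_subset_interior
    (modelWithCornersSelf ℝ (Fin m → ℂ)) (n := ⊤) hK.isClosed hKL
  have hsub : tsupport f ⊆ L := by
    refine closure_minimal (fun x hx => ?_) hL.isClosed
    by_contra hxL
    exact hx (h0 x hxL)
  refine ⟨f, f.contMDiff.contDiff, hL.of_isClosed_subset (isClosed_tsupport _) hsub,
    hsub.trans hLU, fun z hz => ?_⟩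
  exact (eventually_nhdsSet_iff_forall.mp h1) z hz

theorem eli_smooth {U : Set (Fin m → ℂ)} (hU : IsOpen U) {f g : (Fin m → ℂ) → ℂ}
    (hf : ContDiffOn ℝ ∞ f U) (hg : ContDiff ℝ ∞ g) (hs : tsupport g ⊆ U) :
    ContDiff ℝ ∞ (fun z => f z * g z) := by
  rw [contDiff_iff_contDiffAt]
  intro z
  by_cases hz : z ∈ tsupport g
  · exact (hf.contDiffAt (hU.mem_nhds (hs hz))).mul hg.contDiffAt
  · have h : (fun z => f z * g z) =ᶠ[𝓝 z] fun _ => 0 := by
      filter_upwards [(isClosed_tsupport g).isOpen_compl.mem_nhds hz] with w hw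
      rw [image_eq_zero_of_notMem_tsupport hw, mul_zero]
    exact contDiffAt_const.congr_of_eventuallyEq h

theorem eli_mulTst {U : Set (Fin m → ℂ)} (hU : IsOpen U) {f g : (Fin m → ℂ) → ℂ}
    (hf : ContDiffOn ℝ ∞ f U) (hg : Tst U g) : Tst U (fun z => f z * g z) := by
  have hsub : tsupport (fun z => f z * g z) ⊆ tsupport g := by
    refine closure_minimal (fun z hz => ?_) (isClosed_tsupport g)
    by_contra h
    exact hz (by simp only [image_eq_zero_of_notMem_tsupport h, mul_zero])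
  exact ⟨eli_smooth hU hf hg.1 hg.2.2, hg.2.1.of_isClosed_subset (isClosed_tsupport _) hsub,
    hsub.trans hg.2.2⟩

theorem eli_integrable {U : Set (Fin m → ℂ)} (hU : IsOpen U) {f g : (Fin m → ℂ) → ℂ}
    (hf : ContinuousOn f U) (hg : Tst U g) : Integrable (fun z => f z * g z) := by
  have hc : Continuous (fun z => f z * g z) := by
    rw [continuous_iff_continuousAt]
    intro z
    by_cases hz : z ∈ tsupport g
    · exact (hf.continuousAt (hU.mem_nhds (hg.2.2 hz))).mul hg.1.continuous.continuousAt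
    · have h : (fun z => f z * g z) =ᶠ[𝓝 z] fun _ => 0 := by
        filter_upwards [(isClosed_tsupport g).isOpen_compl.mem_nhds hz] with w hw
        rw [image_eq_zero_of_notMem_tsupport hw, mul_zero]
      exact continuousAt_const.congr h.symm
  exact hc.integrable_of_hasCompactSupport hg.2.1.mul_left

theorem eli_ibp (hI : StIBP) {U : Set (Fin m → ℂ)} (hU : IsOpen U) {f g : (Fin m → ℂ) → ℂ}
    (hf : ContDiffOn ℝ ∞ f U) (hg : Tst U g) (j : Fin m) :
    (∫ z in U, dz j f z * g z) = - ∫ z in U, f z * dz j g z ∧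
      (∫ z in U, db j f z * g z) = - ∫ z in U, f z * db j g z := by
  obtain ⟨F, hF, hFc, hFs, hF1⟩ := eli_cut hg.2.1 hU hg.2.2
  have hcs : tsupport (cf F) ⊆ U := by
    refine (closure_mono fun z hz => ?_).trans hFs
    intro h
    apply hz
    simp [cf, h]
  have hcF : ContDiff ℝ ∞ (cf F) := contDiffOn_univ.1 (eli_cf F hF.contDiffOn)
  have hf' : ContDiff ℝ ∞ (fun z => f z * cf F z) := eli_smooth hU hf hcF hcs
  have heq : ∀ z ∈ tsupport g, (fun z => f z * cf F z) =ᶠ[𝓝 z] f := by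
    intro z hz
    filter_upwards [hF1 z hz] with w hw
    simp [cf, hw]
  obtain ⟨e1, e2⟩ := hI m j (fun z => f z * cf F z) g (hf'.of_le (by simp)) (hg.1.of_le (by simp))
    hg.2.1
  have hoff : ∀ z, z ∉ tsupport g → g z = 0 ∧ dz j g z = 0 ∧ db j g z = 0 := fun z hz =>
    ⟨image_eq_zero_of_notMem_tsupport hz, (eli_zero j g z hz).1, (eli_zero j g z hz).2⟩
  have hoU : ∀ z, z ∉ U → g z = 0 ∧ dz j g z = 0 ∧ db j g z = 0 := fun z hz =>
    hoff z fun h => hz (hg.2.2 h)
  constructor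
  · rw [setIntegral_eq_integral_of_forall_compl_eq_zero (fun z hz => by rw [(hoU z hz).1, mul_zero]),
      setIntegral_eq_integral_of_forall_compl_eq_zero (fun z hz => by rw [(hoU z hz).2.1, mul_zero])]
    have a1 : (∫ z, dz j f z * g z) = ∫ z, dz j (fun z => f z * cf F z) z * g z := by
      congr 1
      funext z
      by_cases hz : z ∈ tsupport g
      · rw [eli_dz_congr j _ _ z (heq z hz)]
      · rw [(hoff z hz).1, mul_zero, mul_zero]
    have a2 : (∫ z, f z * dz j g z) = ∫ z, f z * cf F z * dz j g z := by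
      congr 1
      funext z
      by_cases hz : z ∈ tsupport g
      · have h1 := (heq z hz).self_of_nhds
        simp only at h1
        rw [h1]
      · rw [(hoff z hz).2.1, mul_zero, mul_zero]
    rw [a1, a2, e1]
  · rw [setIntegral_eq_integral_of_forall_compl_eq_zero (fun z hz => by rw [(hoU z hz).1, mul_zero]),
      setIntegral_eq_integral_of_forall_compl_eq_zero (fun z hz => by rw [(hoU z hz).2.2, mul_zero])]
    have a1 : (∫ z, db j f z * g z) = ∫ z, db j (fun z => f z * cf F z) z * g z := by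
      congr 1
      funext z
      by_cases hz : z ∈ tsupport g
      · rw [eli_db_congr j _ _ z (heq z hz)]
      · rw [(hoff z hz).1, mul_zero, mul_zero]
    have a2 : (∫ z, f z * db j g z) = ∫ z, f z * cf F z * db j g z := by
      congr 1
      funext z
      by_cases hz : z ∈ tsupport g
      · have h1 := (heq z hz).self_of_nhds
        simp only at h1
        rw [h1]
      · rw [(hoff z hz).2.2, mul_zero, mul_zero]
    rw [a1, a2, e2]

theorem eli_sumTst {U : Set (Fin m → ℂ)} {ι : Type} (s : Finset ι)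
    (f : ι → (Fin m → ℂ) → ℂ) (h : ∀ i ∈ s, Tst U (f i)) : Tst U (fun z => ∑ i ∈ s, f i z) := by
  classical
  induction s using Finset.induction_on with
  | empty =>
    have h0 : (fun z : Fin m → ℂ => ∑ i ∈ (∅ : Finset ι), f i z) = 0 := by
      funext z
      simp
    rw [h0]
    exact ⟨contDiff_const, HasCompactSupport.zero, by simp [tsupport]⟩
  | insert a s ha ih =>
    have h1 := ih fun i hi => h i (Finset.mem_insert_of_mem hi)
    have h2 := h a (Finset.mem_insert_self a s)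
    have h0 : (fun z : Fin m → ℂ => ∑ i ∈ insert a s, f i z) =
        f a + fun z => ∑ i ∈ s, f i z := by
      funext z
      rw [Finset.sum_insert ha]
      rfl
    rw [h0]
    exact ⟨h2.1.add h1.1, h2.2.1.add h1.2.1,
      (tsupport_add _ _).trans (Set.union_subset h2.2.2 h1.2.2)⟩

theorem eli_conv {U : Set (Fin m → ℂ)} (hU : IsOpen U) (x : ℕ → (Fin m → ℂ) → ℝ)
    (g : (Fin m → ℂ) → ℝ) (hx : ∀ i, ContinuousOn (x i) U)
    (hlim : ∀ᵐ z ∂volume.restrict U, Tendsto (fun i => x i z) atTop (𝓝 (g z)))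
    (hbd : ∀ K ⊆ U, IsCompact K → ∃ B : ℝ, ∀ᶠ i in atTop, ∀ z ∈ K, |x i z| ≤ B)
    (b : (Fin m → ℂ) → ℂ) (hb : Tst U b) :
    Tendsto (fun i => ∫ z in U, (x i z : ℂ) * b z) atTop (𝓝 (∫ z in U, (g z : ℂ) * b z)) := by
  obtain ⟨B, hB⟩ := hbd (tsupport b) hb.2.2 hb.2.1
  have hbi : Integrable (fun z => |B| * ‖b z‖) (volume.restrict U) :=
    ((hb.1.continuous.integrable_of_hasCompactSupport hb.2.1).norm.const_mul |B|).integrableOn
  refine tendsto_integral_filter_of_dominated_convergence (fun z => |B| * ‖b z‖) ?_ ?_ hbi ?_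
  · refine Eventually.of_forall fun i => ?_
    have h1 : ContinuousOn (fun z => (x i z : ℂ) * b z) U :=
      (Complex.continuous_ofReal.comp_continuousOn (hx i)).mul hb.1.continuous.continuousOn
    exact h1.aestronglyMeasurable hU.measurableSet
  · filter_upwards [hB] with i hi
    refine Eventually.of_forall fun z => ?_
    rw [norm_mul, Complex.norm_real, Real.norm_eq_abs]
    by_cases hz : z ∈ tsupport b
    · exact mul_le_mul_of_nonneg_right ((hi z hz).trans (le_abs_self B)) (norm_nonneg _)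
    · rw [image_eq_zero_of_notMem_tsupport hz, norm_zero, mul_zero, mul_zero]
  · filter_upwards [hlim] with z hz
    exact ((Complex.continuous_ofReal.tendsto _).comp hz).mul_const (b z)

theorem eli_H (hI : StIBP) {U : Set (Fin m → ℂ)} (hU : IsOpen U) (w : (Fin m → ℂ) → ℝ)
    (hw : ContDiffOn ℝ ∞ w U) (η : Fin m → (Fin m → ℂ) → ℂ) (hη : ∀ j, Tst U (η j)) :
    ∃ Θ : (Fin m → ℂ) → ℂ, Tst U Θ ∧ ∀ ψ : (Fin m → ℂ) → ℝ, ContDiffOn ℝ ∞ ψ U →
      IntegrableOn (fun z => hf (hes ψ z) (fun j => η j z) * w z) U ∧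
      ∫ z in U, hf (hes ψ z) (fun j => η j z) * w z = (∫ z in U, (ψ z : ℂ) * Θ z).re := by
  obtain ⟨θ, hθ⟩ : ∃ θ : Fin m → Fin m → (Fin m → ℂ) → ℂ,
      θ = fun j k z => (cf w z * star (η k z)) * η j z := ⟨_, rfl⟩
  have hθT : ∀ j k, Tst U (θ j k) := by
    intro j k
    rw [hθ]
    have h1 : ContDiffOn ℝ ∞ (fun z => cf w z * star (η k z)) U :=
      (eli_cf w hw).mul ((Complex.conjCLE.contDiff.comp (hη k).1).contDiffOn)
    exact eli_mulTst hU h1 (hη j)
  refine ⟨fun z => ∑ j, ∑ k, db k (dz j (θ j k)) z, ?_, ?_⟩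
  · exact eli_sumTst _ _ fun j _ => eli_sumTst _ _ fun k _ => (eli_tst k (eli_tst j (hθT j k)).1).2
  · intro ψ hψ
    have hc := eli_cf ψ hψ
    have hpt : ∀ z, hf (hes ψ z) (fun j => η j z) * w z =
        (∑ j, ∑ k, dz j (db k (cf ψ)) z * θ j k z).re := by
      intro z
      have h2 : (∑ j, ∑ k, dz j (db k (cf ψ)) z * θ j k z) =
          (∑ j, ∑ k, hes ψ z j k * η j z * star (η k z)) * ((w z : ℝ) : ℂ) := by
        rw [Finset.sum_mul]
        refine Finset.sum_congr rfl fun j _ => ?_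
        rw [Finset.sum_mul]
        refine Finset.sum_congr rfl fun k _ => ?_
        rw [hθ]
        show dz j (db k (cf ψ)) z * (((w z : ℝ) : ℂ) * star (η k z) * η j z) =
          dz j (db k (cf ψ)) z * η j z * star (η k z) * ((w z : ℝ) : ℂ)
        ring
      rw [h2, Complex.re_mul_ofReal]
      rfl
    have hint : ∀ j k, Integrable (fun z => dz j (db k (cf ψ)) z * θ j k z) := fun j k =>
      eli_integrable hU (eli_cdz hU j _ (eli_cdb hU k _ hc)).continuousOn (hθT j k)
    have hintS : Integrable (fun z => ∑ j, ∑ k, dz j (db k (cf ψ)) z * θ j k z) :=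
      integrable_finsetSum _ fun j _ => integrable_finsetSum _ fun k _ => hint j k
    have hint2 : ∀ j k, Integrable (fun z => cf ψ z * db k (dz j (θ j k)) z) := fun j k =>
      eli_integrable hU hc.continuousOn (eli_tst k (eli_tst j (hθT j k)).1).2
    constructor
    · simp only [hpt]
      exact hintS.integrableOn.re
    · simp only [hpt]
      have h3 : ∫ z in U, (∑ j, ∑ k, dz j (db k (cf ψ)) z * θ j k z).re =
          (∫ z in U, (∑ j, ∑ k, dz j (db k (cf ψ)) z * θ j k z)).re :=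
        integral_re hintS.integrableOn
      rw [h3]
      congr 1
      rw [integral_finsetSum _ fun j _ => integrable_finsetSum _ fun k _ => (hint j k).integrableOn]
      have h4 : (∫ z in U, (ψ z : ℂ) * ∑ j, ∑ k, db k (dz j (θ j k)) z) =
          ∑ j, ∑ k, ∫ z in U, cf ψ z * db k (dz j (θ j k)) z := by
        change (∫ z in U, cf ψ z * ∑ j, ∑ k, db k (dz j (θ j k)) z) = _
        simp only [Finset.mul_sum]
        rw [integral_finsetSum _ fun j _ =>
          integrable_finsetSum _ fun k _ => (hint2 j k).integrableOn]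
        refine Finset.sum_congr rfl fun j _ => ?_
        rw [integral_finsetSum _ fun k _ => (hint2 j k).integrableOn]
      rw [h4]
      refine Finset.sum_congr rfl fun j _ => ?_
      rw [integral_finsetSum _ fun k _ => (hint j k).integrableOn]
      refine Finset.sum_congr rfl fun k _ => ?_
      rw [(eli_ibp hI hU (eli_cdb hU k _ hc) (hθT j k) j).1,
        (eli_ibp hI hU hc (eli_tst j (hθT j k)).1 k).2, neg_neg]

theorem eli_amgm (N y h E n w lam δ P : ℝ) (hy : 0 ≤ y) (hh : 0 ≤ h) (hE : 0 < E)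
    (hP : E * P = 1) (hn : 0 < n) (hw : P / n ≤ δ * w) (hlam : 0 < lam) (hNN : N ^ 2 ≤ y * h) :
    N ≤ lam / 2 * (y * E * n) + δ / (2 * lam) * (h * w) := by
  have hP0 : 0 < P := by
    by_contra hc
    push Not at hc
    nlinarith
  obtain ⟨a, ha⟩ : ∃ a, a = y * E * n := ⟨_, rfl⟩
  obtain ⟨b, hb⟩ : ∃ b, b = h * (P / n) := ⟨_, rfl⟩
  have ha0 : 0 ≤ a := by rw [ha]; positivity
  have hb0 : 0 ≤ b := by rw [hb]; positivity
  have hab : a * b = y * h := by
    rw [ha, hb]
    have : y * E * n * (h * (P / n)) = y * h * (E * P) * (n / n) := by ring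
    rw [this, hP, div_self hn.ne']
    ring
  have h1 : N ≤ lam / 2 * a + b / (2 * lam) := by
    refine abs_le_of_sq_le_sq' ?_ (by positivity) |>.2
    have h2 : (lam / 2 * a + b / (2 * lam)) ^ 2 = a * b + (lam / 2 * a - b / (2 * lam)) ^ 2 := by
      field_simp
      ring
    rw [h2, hab]
    nlinarith [sq_nonneg (lam / 2 * a - b / (2 * lam))]
  have h3 : b / (2 * lam) ≤ δ / (2 * lam) * (h * w) := by
    have h4 : b ≤ δ * (h * w) := by
      rw [hb]
      calc h * (P / n) ≤ h * (δ * w) := mul_le_mul_of_nonneg_left hw hh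
        _ = δ * (h * w) := by ring
    rw [div_mul_eq_mul_div]
    exact div_le_div_of_nonneg_right h4 (by positivity)
  rw [← ha]
  linarith

end eli

theorem hELI (hI : StIBP) (_ : StCAL) : StELI := by
  intro m U hU u J hu hJ hJ0 ψ x y g A hψ hx hy hpsd hyi hA hψu hxg hbd hup η hη
  obtain ⟨w, hwd⟩ : ∃ w : (Fin m → ℂ) → ℝ, w = fun z => Real.exp (u z) / ‖J z‖ ^ 2 := ⟨_, rfl⟩
  have hw : ContDiffOn ℝ ∞ w U := by
    rw [hwd]
    have hJs : ContDiffOn ℝ ∞ J U := Pool.Agent.Helper31.KP.Hol.contDiffOn_real hU hJ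
    have hn : ContDiffOn ℝ ∞ (fun z => ‖J z‖ ^ 2) U := by
      have := hJs.norm_sq (𝕜 := ℝ)
      exact this
    exact hu.exp.div hn fun z hz => by
      have := norm_pos_iff.2 (hJ0 z hz)
      positivity
  obtain ⟨D, hDd⟩ : ∃ D : (Fin m → ℂ) → ℂ, D = fun z => ∑ j, dz j (η j) z := ⟨_, rfl⟩
  have hD : Tst U D := by
    rw [hDd]
    exact eli_sumTst _ _ fun j _ => (eli_tst j (hη j)).1
  have hKc : IsCompact (⋃ j, tsupport (η j)) := isCompact_iUnion fun j => (hη j).2.1
  have hKU : (⋃ j, tsupport (η j)) ⊆ U := Set.iUnion_subset fun j => (hη j).2.2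
  obtain ⟨Θ, hΘ, hH⟩ := eli_H hI hU w hw η hη
  have hbx : ∀ K ⊆ U, IsCompact K → ∃ B : ℝ, ∀ᶠ i in atTop, ∀ z ∈ K, |x i z| ≤ B := by
    intro K hK1 hK2
    obtain ⟨B, hB⟩ := hbd K hK1 hK2
    exact ⟨B, hB.mono fun i hi z hz => (hi z hz).1⟩
  have hbψ : ∀ K ⊆ U, IsCompact K → ∃ B : ℝ, ∀ᶠ i in atTop, ∀ z ∈ K, |ψ i z| ≤ B := by
    intro K hK1 hK2
    obtain ⟨B, hB⟩ := hbd K hK1 hK2
    exact ⟨B, hB.mono fun i hi z hz => (hi z hz).2⟩
  have hLlim := (eli_conv hU x g (fun i => (hx i).continuousOn) hxg hbx D hD).norm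
  have hHlim : Tendsto (fun i => ∫ z in U, hf (hes (ψ i) z) (fun j => η j z) * w z) atTop
      (𝓝 (∫ z in U, hf (hes u z) (fun j => η j z) * w z)) := by
    have h1 := eli_conv hU ψ u (fun i => (hψ i).continuousOn) hψu hbψ Θ hΘ
    have h2 := (Complex.continuous_re.tendsto _).comp h1
    rw [(hH u hu).2]
    refine h2.congr fun i => ?_
    rw [(hH (ψ i) (hψ i)).2]
    rfl
  obtain ⟨H, hHd⟩ : ∃ H : ℝ, H = ∫ z in U, hf (hes u z) (fun j => η j z) * w z := ⟨_, rfl⟩
  obtain ⟨L, hLd⟩ : ∃ L : ℝ, L = ‖∫ z in U, (g z : ℂ) * D z‖ := ⟨_, rfl⟩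
  rw [← hHd] at hHlim
  rw [← hLd] at hLlim
  have hHi0 : ∀ i, 0 ≤ ∫ z in U, hf (hes (ψ i) z) (fun j => η j z) * w z := by
    intro i
    refine setIntegral_nonneg hU.measurableSet fun z hz => ?_
    refine mul_nonneg ((hpsd i z hz).1.2 _) ?_
    rw [hwd]
    positivity
  have hH0 : 0 ≤ H := ge_of_tendsto' hHlim hHi0
  have hA0 : 0 ≤ A := by
    refine le_of_forall_pos_le_add fun ε hε => ?_
    obtain ⟨i, hi⟩ := (hA ε hε).exists
    refine le_trans ?_ hi
    refine setIntegral_nonneg hU.measurableSet fun z hz => ?_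
    have := (hpsd i z hz).2.1
    positivity
  have hineq : ∀ lam : ℝ, 0 < lam → ∀ δ : ℝ, 0 < δ →
      L ≤ lam / 2 * (A + δ) + Real.exp δ / (2 * lam) * H := by
    intro lam hlam δ hδ
    have hev : ∀ᶠ i in atTop, ‖∫ z in U, (x i z : ℂ) * D z‖ ≤ lam / 2 * (A + δ) +
        Real.exp δ / (2 * lam) * ∫ z in U, hf (hes (ψ i) z) (fun j => η j z) * w z := by
      filter_upwards [hA δ hδ, hup _ hKU hKc δ hδ] with i hi1 hi2
      have hcx := eli_cf (x i) (hx i)
      have e1 : ∫ z in U, (x i z : ℂ) * D z = - ∫ z in U, ∑ j, dz j (cf (x i)) z * η j z := by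
        have i1 : ∀ j, Integrable (fun z => cf (x i) z * dz j (η j) z) := fun j =>
          eli_integrable hU hcx.continuousOn (eli_tst j (hη j)).1
        have i2 : ∀ j, Integrable (fun z => dz j (cf (x i)) z * η j z) := fun j =>
          eli_integrable hU (eli_cdz hU j _ hcx).continuousOn (hη j)
        rw [integral_finsetSum _ fun j _ => (i2 j).integrableOn, hDd]
        change (∫ z in U, cf (x i) z * ∑ j, dz j (η j) z) = _
        simp only [Finset.mul_sum]
        rw [integral_finsetSum _ fun j _ => (i1 j).integrableOn, ← Finset.sum_neg_distrib]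
        refine Finset.sum_congr rfl fun j _ => ?_
        rw [(eli_ibp hI hU hcx (hη j) j).1, neg_neg]
      rw [e1, norm_neg]
      have hgi : Integrable (fun z => lam / 2 * (y i z * Real.exp (-ψ i z) * ‖J z‖ ^ 2) +
          Real.exp δ / (2 * lam) * (hf (hes (ψ i) z) (fun j => η j z) * w z))
          (volume.restrict U) :=
        ((hyi i).const_mul _).add ((hH (ψ i) (hψ i)).1.const_mul _)
      refine (norm_integral_le_of_norm_le hgi ?_).trans ?_
      · rw [ae_restrict_iff' hU.measurableSet]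
        refine Eventually.of_forall fun z hz => ?_
        obtain ⟨p1, p2, p3⟩ := hpsd i z hz
        have hn : 0 < ‖J z‖ ^ 2 := by
          have := norm_pos_iff.2 (hJ0 z hz)
          positivity
        by_cases hzK : z ∈ ⋃ j, tsupport (η j)
        · refine eli_amgm _ (y i z) (hf (hes (ψ i) z) (fun j => η j z)) (Real.exp (-ψ i z))
            (‖J z‖ ^ 2) (w z) lam (Real.exp δ) (Real.exp (ψ i z)) p2
            (p1.2 _) (Real.exp_pos _) ?_ hn ?_ hlam (p3 _)
          · rw [← Real.exp_add, neg_add_cancel, Real.exp_zero]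
          · rw [hwd]
            simp only
            rw [← mul_div_assoc]
            refine div_le_div_of_nonneg_right ?_ hn.le
            rw [← Real.exp_add]
            refine Real.exp_le_exp.2 ?_
            have := hi2 z hzK
            linarith
        · have h0 : ∀ j, η j z = 0 := fun j =>
            image_eq_zero_of_notMem_tsupport fun h => hzK (Set.mem_iUnion.2 ⟨j, h⟩)
          simp only [h0, mul_zero, Finset.sum_const_zero, norm_zero]
          have h1 : 0 ≤ hf (hes (ψ i) z) (fun _ => 0) := p1.2 _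
          have h2 : 0 ≤ w z := by
            rw [hwd]
            positivity
          positivity
      · rw [integral_add ((hyi i).const_mul _) ((hH (ψ i) (hψ i)).1.const_mul _),
          integral_const_mul, integral_const_mul]
        have := mul_le_mul_of_nonneg_left hi1 (by positivity : 0 ≤ lam / 2)
        linarith
    exact le_of_tendsto_of_tendsto hLlim (tendsto_const_nhds.add (hHlim.const_mul _)) hev
  have hineq2 : ∀ lam : ℝ, 0 < lam → L ≤ lam / 2 * A + 1 / (2 * lam) * H := by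
    intro lam hlam
    have hcont : Continuous fun δ : ℝ => lam / 2 * (A + δ) + Real.exp δ / (2 * lam) * H := by
      fun_prop
    have h1 : Tendsto (fun δ : ℝ => lam / 2 * (A + δ) + Real.exp δ / (2 * lam) * H)
        (𝓝[>] 0) (𝓝 (lam / 2 * (A + 0) + Real.exp 0 / (2 * lam) * H)) :=
      (hcont.tendsto 0).mono_left nhdsWithin_le_nhds
    rw [add_zero, Real.exp_zero] at h1
    refine ge_of_tendsto h1 ?_
    filter_upwards [self_mem_nhdsWithin] with δ hδ
    exact hineq lam hlam δ hδ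
  have hL0 : 0 ≤ L := by
    rw [hLd]
    exact norm_nonneg _
  have hquad : ∀ t : ℝ, 0 ≤ A * (t * t) + (-(2 * L)) * t + H := by
    intro t
    rcases le_or_gt t 0 with ht | ht
    · have h1 : 0 ≤ A * (t * t) := mul_nonneg hA0 (mul_self_nonneg t)
      have h2 : 0 ≤ -(2 * L) * t := by nlinarith
      linarith
    · have h1 := hineq2 t ht
      have h2 : 2 * t * L ≤ 2 * t * (t / 2 * A + 1 / (2 * t) * H) :=
        mul_le_mul_of_nonneg_left h1 (by positivity)
      have h3 : 2 * t * (t / 2 * A + 1 / (2 * t) * H) = A * (t * t) + H := by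
        field_simp
      linarith
  have hdisc := discrim_le_zero hquad
  unfold discrim at hdisc
  have hfin : L ^ 2 ≤ A * H := by nlinarith
  rw [hLd, hHd, hDd, hwd] at hfin
  exact hfin

end Pool.Agent.Helper62.KP
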